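import Pool.Agent.helper17.MK.Spec

/-!
# Row CE: conditional expectation
-/

set_option autoImplicit false

namespace Pool.Agent.MK

open Finset Real Pool.Agent.helper39.MT Pool.Agent.helper85.FC

set_option linter.unusedSectionVars false

section
variable {ι : Type} [Fintype ι] [DecidableEq ι] {k : ℕ}

/-- sorting by the image -/
theorem CE_push {Ω : Type} [Fintype Ω] [DecidableEq Ω] (w : ι → Ω → ℝ) (r : Ω → Ω)
    (G : (ι → Ω) → ℝ) :
    ∑ e : ι → Ω, (∏ p, w p (e p)) * G (fun p => r (e p)) =
      ∑ f : ι → Ω, (∏ p, ∑ x, w p x * if r x = f p then (1 : ℝ) else 0) * G f := by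
  have h1 : ∀ f : ι → Ω, (∏ p, ∑ x, w p x * if r x = f p then (1 : ℝ) else 0) =
      ∑ e : ι → Ω, ∏ p, (w p (e p) * if r (e p) = f p then (1 : ℝ) else 0) := by
    intro f
    rw [Finset.prod_univ_sum, Fintype.piFinset_univ]
  simp_rw [h1, Finset.sum_mul]
  rw [Finset.sum_comm]
  refine Finset.sum_congr rfl fun e _ => ?_
  rw [Finset.sum_eq_single (fun p => r (e p))]
  · rw [Finset.prod_mul_distrib]
    simp
  · intro f _ hf
    obtain ⟨p, hp⟩ : ∃ p, r (e p) ≠ f p := by
      by_contra h
      push Not at h
      exact hf (funext fun p => (h p).symm)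
    rw [Finset.prod_eq_zero (Finset.mem_univ p)]
    · rw [zero_mul]
    · rw [if_neg hp, mul_zero]
  · intro h
    exact absurd (Finset.mem_univ _) h

/-- the map at one place -/
def CE_r (m m' : Fin k) (x : Option (Fin k)) : Option (Fin k) :=
  if x = some m ∨ x = some m' then none else x

/-- the weights at one place -/
noncomputable def CE_w (pr : ι → ℕ) (μ : ι → Option (Fin k) → ℝ) (m m' : Fin k) (K : Finset ℕ)
    (p : ι) (x : Option (Fin k)) : ℝ :=
  μ p x * (if pr p ∈ K then (if x = some m ∨ x = some m' then 1 else 0) else 1)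

theorem CE_sum (pr : ι → ℕ) (μ : ι → Option (Fin k) → ℝ) (m m' : Fin k) (hm : m ≠ m')
    (K : Finset ℕ) (p : ι) (y : Option (Fin k)) :
    ∑ x, CE_w pr μ m m' K p x * (if CE_r m m' x = y then (1 : ℝ) else 0) =
      if pr p ∈ K then (if y = none then μ p (some m) + μ p (some m') else 0) else
        kap μ ∅ m m' p y := by
  have hsm : (some m : Option (Fin k)) ≠ some m' := fun h => hm (Option.some_injective _ h)
  have hrn : ∀ x : Option (Fin k), CE_r m m' x = none ↔ x = none ∨ x = some m ∨ x = some m' := by
    intro x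
    unfold CE_r
    split_ifs with h
    · simp [h]
    · constructor
      · intro hx
        exact Or.inl hx
      · rintro (hx | hx)
        · exact hx
        · exact absurd hx h
  have hrs : ∀ (x : Option (Fin k)) (i : Fin k), CE_r m m' x = some i ↔
      x = some i ∧ ¬ (i = m ∨ i = m') := by
    intro x i
    unfold CE_r
    split_ifs with h
    · constructor
      · intro h1
        simp at h1
      · rintro ⟨h1, h2⟩
        exfalso
        apply h2
        rcases h with h | h
        · exact Or.inl (Option.some_injective _ (h1.symm.trans h))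
        · exact Or.inr (Option.some_injective _ (h1.symm.trans h))
    · constructor
      · intro h1
        refine ⟨h1, ?_⟩
        rintro (h2 | h2)
        · exact h (Or.inl (by rw [h1, h2]))
        · exact h (Or.inr (by rw [h1, h2]))
      · exact fun h1 => h1.1
  cases y with
  | none =>
    have h1 : ∀ x : Option (Fin k), CE_w pr μ m m' K p x * (if CE_r m m' x = none then (1 : ℝ) else 0) =
        if x ∈ ({none, some m, some m'} : Finset (Option (Fin k))) then CE_w pr μ m m' K p x else 0 := by
      intro x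
      by_cases hx : CE_r m m' x = none
      · rw [if_pos hx, mul_one, if_pos (by simpa using (hrn x).1 hx)]
      · rw [if_neg hx, mul_zero, if_neg (by simpa using fun h => hx ((hrn x).2 h))]
    simp_rw [h1]
    rw [Finset.sum_ite_mem, Finset.univ_inter, Finset.sum_insert (by simp),
      Finset.sum_pair hsm]
    unfold CE_w kap
    by_cases hK : pr p ∈ K
    · simp [hK]
    · simp [hK]
  | some i =>
    by_cases hi : i = m ∨ i = m'
    · have h1 : ∀ x : Option (Fin k),
          CE_w pr μ m m' K p x * (if CE_r m m' x = some i then (1 : ℝ) else 0) = 0 := by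
        intro x
        rw [if_neg, mul_zero]
        intro h
        exact ((hrs x i).1 h).2 hi
      simp_rw [h1]
      rw [Finset.sum_const_zero]
      unfold kap
      simp [hi]
    · rw [Finset.sum_eq_single (some i)]
      · rw [if_pos ((hrs _ i).2 ⟨rfl, hi⟩), mul_one]
        unfold CE_w kap
        push Not at hi
        simp [hi.1, hi.2]
      · intro x _ hx
        rw [if_neg, mul_zero]
        intro h
        exact hx ((hrs x i).1 h).1
      · intro h
        exact absurd (Finset.mem_univ _) h

theorem CE_SU (pr : ι → ℕ) (l : Finset ℕ → ℝ) (P : Finset ℕ) (m m' : Fin k)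
    (e : ι → Option (Fin k)) (hinj : Function.Injective pr) :
    SU pr l P m m' e = ∑ K ∈ P.powerset.filter (fun K => K ⊆ univ.image pr),
      l K * ∏ p, (if pr p ∈ K then (if e p = some m ∨ e p = some m' then (1 : ℝ) else 0) else 1) := by
  have hmem : ∀ q : ℕ, q ∈ TS pr m e ∪ TS pr m' e ↔
      ∃ p, (e p = some m ∨ e p = some m') ∧ pr p = q := by
    intro q
    unfold TS cls
    simp only [Finset.mem_union, Finset.mem_image, Finset.mem_filter, Finset.mem_univ, true_and]
    constructor
    · rintro (⟨p, h1, h2⟩ | ⟨p, h1, h2⟩)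
      · exact ⟨p, Or.inl h1, h2⟩
      · exact ⟨p, Or.inr h1, h2⟩
    · rintro ⟨p, h1 | h1, h2⟩
      · exact Or.inl ⟨p, h1, h2⟩
      · exact Or.inr ⟨p, h1, h2⟩
  unfold SU Sg
  have hsub : (((TS pr m e ∪ TS pr m' e) ∩ P).powerset) ⊆
      P.powerset.filter (fun K => K ⊆ univ.image pr) := by
    intro K hK
    rw [Finset.mem_powerset] at hK
    rw [Finset.mem_filter, Finset.mem_powerset]
    refine ⟨hK.trans Finset.inter_subset_right, fun q hq => ?_⟩
    obtain ⟨p, _, hp⟩ := (hmem q).1 (Finset.mem_of_mem_inter_left (hK hq))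
    exact Finset.mem_image.2 ⟨p, Finset.mem_univ p, hp⟩
  rw [← Finset.sum_subset hsub]
  · refine Finset.sum_congr rfl fun K hK => ?_
    rw [Finset.mem_powerset] at hK
    rw [Finset.prod_eq_one, mul_one]
    intro p _
    split_ifs with h1 h2
    · rfl
    · exfalso
      apply h2
      obtain ⟨p', h3, h4⟩ := (hmem (pr p)).1 (Finset.mem_of_mem_inter_left (hK h1))
      rwa [hinj h4] at h3
    · rfl
  · intro K hK hK'
    rw [Finset.mem_filter, Finset.mem_powerset] at hK
    rw [Finset.mem_powerset] at hK'
    obtain ⟨q, hqK, hq⟩ : ∃ q ∈ K, q ∉ TS pr m e ∪ TS pr m' e := by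
      by_contra h
      push Not at h
      exact hK' fun q hq => Finset.mem_inter.2 ⟨h q hq, hK.1 hq⟩
    obtain ⟨p, _, hp⟩ := Finset.mem_image.1 (hK.2 hqK)
    rw [Finset.prod_eq_zero (Finset.mem_univ p), mul_zero]
    rw [hp, if_pos hqK, if_neg]
    intro h
    exact hq ((hmem q).2 ⟨p, h, hp⟩)

end

theorem CE : CE_stmt := by
  intro ι _ _ k pr μ m m' G l P g ep hinj hm hμ hμ0 hep hG hg hMn
  -- the left side
  set PK := P.powerset.filter (fun K => K ⊆ univ.image pr) with hPK
  have h1 : Ex μ (fun e => G (rem2 m m' e) * SU pr l P m m' e) =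
      ∑ K ∈ PK, l K * ∑ e : ι → Option (Fin k), (∏ p, CE_w pr μ m m' K p (e p)) *
        G (fun p => CE_r m m' (e p)) := by
    unfold Ex
    simp_rw [CE_SU pr l P m m' _ hinj, Finset.mul_sum]
    rw [Finset.sum_comm]
    refine Finset.sum_congr rfl fun K _ => Finset.sum_congr rfl fun e _ => ?_
    have h2 : rem2 m m' e = fun p => CE_r m m' (e p) := rfl
    rw [h2]
    unfold CE_w
    rw [Finset.prod_mul_distrib]
    ring
  have h3 : ∀ K ∈ PK, (∑ e : ι → Option (Fin k), (∏ p, CE_w pr μ m m' K p (e p)) *
      G (fun p => CE_r m m' (e p))) = ∑ f : ι → Option (Fin k), (∏ p, (if pr p ∈ K then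
        (if f p = none then μ p (some m) + μ p (some m') else 0) else kap μ ∅ m m' p (f p))) * G f := by
    intro K _
    rw [CE_push]
    simp_rw [CE_sum pr μ m m' hm K]
  rw [h1, Finset.sum_congr rfl fun K hK => by rw [h3 K hK]]
  simp_rw [Finset.mul_sum]
  rw [Finset.sum_comm]
  unfold Ex
  rw [Finset.mul_sum]
  refine Finset.sum_le_sum fun f _ => ?_
  -- one `f`
  set Q := (((univ : Finset ι).filter fun p => f p = none).image pr) ∩ P with hQ
  have hkap0 : ∀ p, 0 ≤ kap μ ∅ m m' p (f p) := by
    intro p
    cases f p with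
    | none =>
      unfold kap
      have := hμ p none
      have := hμ p (some m)
      have := hμ p (some m')
      simp
      linarith
    | some i =>
      have h5 := hμ p (some i)
      unfold kap
      show (0 : ℝ) ≤ if i = m ∨ i = m' then 0 else μ p (some i)
      by_cases hi : i = m ∨ i = m'
      · rw [if_pos hi]
      · rw [if_neg hi]
        exact h5
  have h4 : ∀ K ∈ PK, l K * ((∏ p, (if pr p ∈ K then
      (if f p = none then μ p (some m) + μ p (some m') else 0) else kap μ ∅ m m' p (f p))) * G f) =
      if K ⊆ Q then (∏ p, kap μ ∅ m m' p (f p)) * G f * (l K * ∏ q ∈ K, g q) else 0 := by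
    intro K hK
    rw [hPK, Finset.mem_filter, Finset.mem_powerset] at hK
    split_ifs with hKQ
    · have h5 : ∏ q ∈ K, g q = ∏ p, (if pr p ∈ K then g (pr p) else 1) := by
        rw [← Finset.prod_filter]
        have h6 : K = ((univ : Finset ι).filter fun p => pr p ∈ K).image pr := by
          ext q
          rw [Finset.mem_image]
          constructor
          · intro hq
            obtain ⟨p, _, hp⟩ := Finset.mem_image.1 (hK.2 hq)
            exact ⟨p, Finset.mem_filter.2 ⟨Finset.mem_univ _, by rw [hp]; exact hq⟩, hp⟩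
          · rintro ⟨p, hp, rfl⟩
            exact (Finset.mem_filter.1 hp).2
        conv_lhs => rw [h6]
        exact Finset.prod_image fun a _ b _ h => hinj h
      have h7 : (∏ p, (if pr p ∈ K then
          (if f p = none then μ p (some m) + μ p (some m') else 0) else kap μ ∅ m m' p (f p))) =
          (∏ p, kap μ ∅ m m' p (f p)) * ∏ q ∈ K, g q := by
        rw [h5, ← Finset.prod_mul_distrib]
        refine Finset.prod_congr rfl fun p _ => ?_
        by_cases hp : pr p ∈ K
        · have hfp : f p = none := by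
            obtain ⟨p', hp', he⟩ := Finset.mem_image.1 (Finset.mem_of_mem_inter_left (hKQ hp))
            have := (Finset.mem_filter.1 hp').2
            rwa [hinj he] at this
          rw [if_pos hp, if_pos hp, if_pos hfp, hfp, ← hg p]
          unfold kap
          simp
          ring
        · rw [if_neg hp, if_neg hp, mul_one]
      rw [h7]
      ring
    · obtain ⟨q, hqK, hq⟩ := Finset.not_subset.1 hKQ
      obtain ⟨p, _, hp⟩ := Finset.mem_image.1 (hK.2 hqK)
      rw [Finset.prod_eq_zero (Finset.mem_univ p), zero_mul, mul_zero]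
      rw [hp, if_pos hqK, if_neg]
      intro hfp
      apply hq
      rw [hQ, Finset.mem_inter, Finset.mem_image]
      exact ⟨⟨p, Finset.mem_filter.2 ⟨Finset.mem_univ _, hfp⟩, hp⟩, hK.1 hqK⟩
  rw [Finset.sum_congr rfl h4]
  have h8 : PK.filter (fun K => K ⊆ Q) = Q.powerset := by
    ext K
    rw [hPK, Finset.mem_filter, Finset.mem_filter, Finset.mem_powerset, Finset.mem_powerset]
    constructor
    · exact fun h => h.2
    · intro h
      refine ⟨⟨h.trans Finset.inter_subset_right, fun q hq => ?_⟩, h⟩
      obtain ⟨p, _, hp⟩ := Finset.mem_image.1 (Finset.mem_of_mem_inter_left (h hq))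
      exact Finset.mem_image.2 ⟨p, Finset.mem_univ _, hp⟩
  rw [← Finset.sum_filter, h8, ← Finset.mul_sum]
  have h9 := hMn Q Finset.inter_subset_right (fun q hq => by
    obtain ⟨p, _, hp⟩ := Finset.mem_image.1 (Finset.mem_of_mem_inter_left hq)
    exact Finset.mem_image.2 ⟨p, Finset.mem_univ _, hp⟩)
  have h10 : 0 ≤ (∏ p, kap μ ∅ m m' p (f p)) * G f :=
    mul_nonneg (Finset.prod_nonneg fun p _ => hkap0 p) (hG f)
  have h11 := mul_le_mul_of_nonneg_left h9 h10
  unfold Mn at h11
  refine h11.trans (le_of_eq ?_)
  have h12 : ∏ q ∈ Q, (1 - g q) =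
      ∏ p, (if f p = none ∧ pr p ∈ P then 1 - g (pr p) else 1) := by
    rw [← Finset.prod_filter]
    have h6 : Q = ((univ : Finset ι).filter fun p => f p = none ∧ pr p ∈ P).image pr := by
      ext q
      rw [hQ, Finset.mem_inter, Finset.mem_image, Finset.mem_image]
      constructor
      · rintro ⟨⟨p, hp, rfl⟩, hqP⟩
        exact ⟨p, Finset.mem_filter.2 ⟨Finset.mem_univ _, (Finset.mem_filter.1 hp).2, hqP⟩, rfl⟩
      · rintro ⟨p, hp, rfl⟩
        have := (Finset.mem_filter.1 hp).2
        exact ⟨⟨p, Finset.mem_filter.2 ⟨Finset.mem_univ _, this.1⟩, rfl⟩, this.2⟩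
    rw [h6]
    exact Finset.prod_image fun a _ b _ h => hinj h
  have h13 : (∏ p, kap μ (univ.filter fun p => pr p ∈ P) m m' p (f p)) =
      (∏ p, kap μ ∅ m m' p (f p)) * ∏ q ∈ Q, (1 - g q) := by
    rw [h12, ← Finset.prod_mul_distrib]
    refine Finset.prod_congr rfl fun p _ => ?_
    cases hf : f p with
    | none =>
      unfold kap
      by_cases hp : pr p ∈ P
      · simp [hp]
        linear_combination hg p
      · simp [hp]
    | some i =>
      unfold kap
      simp
  rw [h13]
  ring

end Pool.Agent.MK
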